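import Pool.Agent.H53.NR.Defs
import Pool.Agent.H53.GC.Targets

/-!
# Targets
-/

set_option autoImplicit false

namespace Pool.Agent.H53.NR

open Pool.Agent.H68.BP Pool.Agent.H58.SF Pool.Agent.H53.GC

/-! ### Systems of parts -/

section systems

/-- `φ` is an embedding of the system `(P, π, t, d)` over `Q` into the system `(P', π', t', d')`:
here `π x` is the part of `x`, `t x` is the type of `x`, and `d x y` is the type of the pair `(x, y)`
for `π x < π y`. -/
structure SysEmb {Q P P' X : Type} [LinearOrder Q] (π : P → Q) (t : P → X) (d : P → P → X)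
    (π' : P' → Q) (t' : P' → X) (d' : P' → P' → X) (φ : P → P') : Prop where
  inj : Function.Injective φ
  part : ∀ x, π' (φ x) = π x
  type : ∀ x, t' (φ x) = t x
  pair : ∀ x y, π x < π y → d' (φ x) (φ y) = d x y

/-- `e` is a copy of `(tA, dA)` in the parts `α`. -/
structure SysCopy {Q P X : Type} (π : P → Q) (t : P → X) (d : P → P → X) {a : ℕ} (α : Fin a → Q)
    (tA : Fin a → X) (dA : Fin a → Fin a → X) (e : Fin a → P) : Prop where
  part : ∀ i, π (e i) = α i
  type : ∀ i, t (e i) = tA i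
  pair : ∀ i j, i < j → d (e i) (e j) = dA i j

/-- `(t, d)` is realized in `V`. -/
def Rlz {V X : Type} (c : V → V → X) (m : ℕ) (t : Fin m → X) (d : Fin m → Fin m → X) : Prop :=
  ∃ v : Fin m → V, (∀ i, c (v i) (v i) = t i) ∧ ∀ i j, i < j → c (v i) (v j) = d i j

/-- In the order `(W, t, d)` all sets with at most `M` elements without free pairs are realized. -/
def OrdOK {V X W : Type} [LinearOrder W] (c : V → V → X) (fr : X → X → X) (M : ℕ) (t : W → X)
    (d : W → W → X) : Prop :=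
  ∀ (m : ℕ) (s : Fin m → W), m ≤ M → StrictMono s →
    (∀ i j, i < j → d (s i) (s j) ≠ fr (t (s i)) (t (s j))) →
    Rlz c m (fun i => t (s i)) (fun i j => d (s i) (s j))

/-- The system `(P, π, t, d)` is compatible with `(Q, tQ, dQ)`, and all sets with at most `M`
elements from different parts, without free pairs, are realized. -/
structure SysOK {V X Q P : Type} [LinearOrder Q] (c : V → V → X) (fr : X → X → X) (M : ℕ)
    (tQ : Q → X) (dQ : Q → Q → X) (π : P → Q) (t : P → X) (d : P → P → X) : Prop where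
  type : ∀ x, t x = tQ (π x)
  pair : ∀ x y, π x < π y → d x y = dQ (π x) (π y) ∨ d x y = fr (t x) (t y)
  real : ∀ (m : ℕ) (s : Fin m → P), m ≤ M → StrictMono (fun i => π (s i)) →
    (∀ i j, i < j → d (s i) (s j) ≠ fr (t (s i)) (t (s j))) →
    Rlz c m (fun i => t (s i)) (fun i j => d (s i) (s j))

/-- `f` is a copy of `(tA, dA)` in the order `(tB, dB)`. -/
structure OrdCopy {X B : Type} [LinearOrder B] {a : ℕ} (tA : Fin a → X) (dA : Fin a → Fin a → X)
    (tB : B → X) (dB : B → B → X) (f : Fin a → B) : Prop where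
  mono : StrictMono f
  type : ∀ i, tB (f i) = tA i
  pair : ∀ i j, i < j → dB (f i) (f j) = dA i j

end systems

/-! ### Targets: the Ramsey theorem -/

/-- the finite Ramsey theorem -/
def T_RSS : Prop :=
  ∀ (a b : ℕ) (κ : Type) [Finite κ], ∃ p : ℕ, ∀ χ : (Fin a → Fin p) → κ,
    ∃ β : Fin b → Fin p, StrictMono β ∧ ∀ f g : Fin a → Fin b, StrictMono f → StrictMono g →
      χ (fun i => β (f i)) = χ (fun i => β (g i))

/-- one step of the partite construction -/
def T_STP : Prop :=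
  ∀ (V X Q P κ : Type) [LinearOrder Q] [Finite P] [Finite κ] (c : V → V → X) (fr : X → X → X)
    (M : ℕ) (π : P → Q) (t : P → X) (d : P → P → X) (a : ℕ) (α : Fin a → Q) (tA : Fin a → X)
    (dA : Fin a → Fin a → X), StrictMono α →
    ∃ (P' : Type) (_ : Finite P') (π' : P' → Q) (t' : P' → X) (d' : P' → P' → X),
      (∀ χ : (Fin a → P') → κ, ∃ φ : P → P', SysEmb π t d π' t' d' φ ∧
        ∀ e e' : Fin a → P, SysCopy π t d α tA dA e → SysCopy π t d α tA dA e' →
          χ (fun i => φ (e i)) = χ (fun i => φ (e' i))) ∧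
      ∀ (tQ : Q → X) (dQ : Q → Q → X), (∀ i, tA i = tQ (α i)) →
        (∀ i j, i < j → dA i j = dQ (α i) (α j)) → OrdOK c fr M tA dA →
        SysOK c fr M tQ dQ π t d → SysOK c fr M tQ dQ π' t' d'

/-- iteration over finitely many tuples of parts -/
def T_ITR : Prop :=
  ∀ (V X Q κ : Type) [LinearOrder Q] [Finite κ] (c : V → V → X) (fr : X → X → X)
    (M : ℕ) (a : ℕ) (tA : Fin a → X) (dA : Fin a → Fin a → X) (l : List (Fin a → Q)),
    (∀ α ∈ l, StrictMono α) →
    ∀ (P : Type) [Finite P] (π : P → Q) (t : P → X) (d : P → P → X),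
    ∃ (P' : Type) (_ : Finite P') (π' : P' → Q) (t' : P' → X) (d' : P' → P' → X),
      (∀ χ : (Fin a → P') → κ, ∃ φ : P → P', SysEmb π t d π' t' d' φ ∧
        ∀ α ∈ l, ∀ e e' : Fin a → P, SysCopy π t d α tA dA e → SysCopy π t d α tA dA e' →
          χ (fun i => φ (e i)) = χ (fun i => φ (e' i))) ∧
      ∀ (tQ : Q → X) (dQ : Q → Q → X), (∀ α ∈ l, ∀ i, tA i = tQ (α i)) →
        (∀ α ∈ l, ∀ i j, i < j → dA i j = dQ (α i) (α j)) → (l ≠ [] → OrdOK c fr M tA dA) →
        SysOK c fr M tQ dQ π t d → SysOK c fr M tQ dQ π' t' d'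

/-- The partite construction: `Q` arrows `B` through the maps in `S`. -/
def T_PCT : Prop :=
  ∀ (V X Q κ : Type) [LinearOrder Q] [Finite Q] [Finite κ] [Nonempty κ] (c : V → V → X) (fr : X → X → X)
    (M : ℕ) (a b : ℕ) (tA : Fin a → X) (dA : Fin a → Fin a → X) (tB : Fin b → X)
    (dB : Fin b → Fin b → X) (S : Set (Fin b → Q)), (∀ β ∈ S, StrictMono β) →
    (∀ χ : (Fin a → Q) → κ, ∃ β ∈ S, ∀ f f' : Fin a → Fin b, OrdCopy tA dA tB dB f →
      OrdCopy tA dA tB dB f' → χ (fun i => β (f i)) = χ (fun i => β (f' i))) →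
    ∃ (P : Type) (_ : Finite P) (π : P → Q) (t : P → X) (d : P → P → X),
      (∀ χ : (Fin a → P) → κ, ∃ φ : Fin b → P, StrictMono (fun i => π (φ i)) ∧
        (∀ i, t (φ i) = tB i) ∧ (∀ i j, i < j → d (φ i) (φ j) = dB i j) ∧
        ∀ f f' : Fin a → Fin b, OrdCopy tA dA tB dB f → OrdCopy tA dA tB dB f' →
          χ (fun i => φ (f i)) = χ (fun i => φ (f' i))) ∧
      ∀ (tQ : Q → X) (dQ : Q → Q → X), (∀ β ∈ S, ∀ i, tB i = tQ (β i)) →
        (∀ β ∈ S, ∀ i j, i < j → dB i j = dQ (β i) (β j)) → OrdOK c fr M tB dB →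
        SysOK c fr M tQ dQ π t d

/-- linear order on a system -/
def T_LIN : Prop :=
  ∀ (X Q P : Type) [LinearOrder Q] [Finite P] (fr : X → X → X) (π : P → Q) (t : P → X)
    (d : P → P → X), ∃ (n : ℕ) (e : P ≃ Fin n) (t' : Fin n → X) (d' : Fin n → Fin n → X),
      (∀ x y, π x < π y → e x < e y) ∧ (∀ x, t' (e x) = t x) ∧
      (∀ x y, π x < π y → d' (e x) (e y) = d x y) ∧
      ∀ x y, π x = π y → d' (e x) (e y) = fr (t x) (t y)

/-- The theorem of Nešetřil and Rödl for one pattern. -/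
def T_NR2 : Prop :=
  ∀ (V X κ : Type) [Finite κ] [Nonempty κ] (c : V → V → X) (fr : X → X → X) (M : ℕ) (a b : ℕ)
    (tA : Fin a → X) (dA : Fin a → Fin a → X) (tB : Fin b → X) (dB : Fin b → Fin b → X),
    OrdOK c fr M tB dB →
    ∃ (n : ℕ) (tC : Fin n → X) (dC : Fin n → Fin n → X), OrdOK c fr M tC dC ∧
      ∀ χ : (Fin a → Fin n) → κ, ∃ φ : Fin b → Fin n, OrdCopy tB dB tC dC φ ∧
        ∀ f f' : Fin a → Fin b, OrdCopy tA dA tB dB f → OrdCopy tA dA tB dB f' →
          χ (fun i => φ (f i)) = χ (fun i => φ (f' i))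

/-- The theorem of Nešetřil and Rödl for a list of patterns. -/
def T_NRI : Prop :=
  ∀ (V X κ : Type) [Finite κ] [Nonempty κ] (c : V → V → X) (fr : X → X → X) (M : ℕ)
    (l : List (Σ a : ℕ, (Fin a → X) × (Fin a → Fin a → X))) (b : ℕ) (tB : Fin b → X)
    (dB : Fin b → Fin b → X), OrdOK c fr M tB dB →
    ∃ (n : ℕ) (tC : Fin n → X) (dC : Fin n → Fin n → X), OrdOK c fr M tC dC ∧
      ∀ χ : (a : ℕ) → (Fin a → Fin n) → κ, ∃ φ : Fin b → Fin n, OrdCopy tB dB tC dC φ ∧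
        ∀ p ∈ l, ∀ f f' : Fin p.1 → Fin b, OrdCopy p.2.1 p.2.2 tB dB f →
          OrdCopy p.2.1 p.2.2 tB dB f' → χ p.1 (fun i => φ (f i)) = χ p.1 (fun i => φ (f' i))

/-- the Ramsey property of universal coloured orders -/
def T_NR3 : Prop :=
  ∀ (V X : Type) [LinearOrder V] [Finite X] (c : V → V → X) (fr : X → X → X) (M : ℕ),
    Universal c fr M → RamseyFin c

/-- canonization from the finite Ramsey property -/
def T_CA2 : Prop :=
  ∀ (σ : Sig) (V X : Type) [LinearOrder V] (𝔸 : Str σ V) (M : ℕ) (c : V → V → X), Finite X →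
    RamseyFin c → SplitClosed 𝔸 c → ∀ h, GoodMap 𝔸 M c h →
    ∃ h', GoodMap 𝔸 M c h' ∧ TypeInv c h'

/-! ### Targets: structures with free amalgamation -/

section free

variable {τ σ : Sig} {B : Type}

/-- free amalgamation and finite boundedness -/
def T_FB1 : Prop :=
  ∀ (τ : Sig) (B : Type) (𝔹 : Str τ B), FinitelyBounded 𝔹 → FreeAmalgamation 𝔹 →
    ∃ M, 2 ≤ M ∧ FreelyBounded 𝔹 M

/-- embeddings which are increasing in an enumeration -/
def T_FB2 : Prop :=
  ∀ (τ : Sig) (B : Type) (𝔹 : Str τ B) (M : ℕ) (en : B → ℕ), Function.Injective en →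
    Homogeneous 𝔹 → FreelyBounded 𝔹 M →
    ∀ (n : ℕ) (𝕏 : Str τ (Fin n)), Embeds 𝕏 𝔹 → ∃ f : Fin n → B, IsEmb 𝕏 𝔹 f ∧
      StrictMono (fun i => en (f i))

/-- The type of the pair `(x, y)`: for each symbol `l` and each assignment of the places of `l` to
`x` (`false`) or `y` (`true`) the truth value in `𝔹`. For `x = y` no tuple with both kinds of places
is counted. -/
def ptype (𝔹 : Str τ B) (x y : B) : (l : Fin τ.m) → (Fin (τ.ar l) → Bool) → Prop :=
  fun l f => (x ≠ y ∨ ∀ i j, f i = f j) ∧ 𝔹 l (fun i => if f i then y else x)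

/-- The types which occur. -/
abbrev PT (𝔹 : Str τ B) : Type :=
  {t : (l : Fin τ.m) → (Fin (τ.ar l) → Bool) → Prop // ∃ x y, ptype 𝔹 x y = t}

/-- the type of a pair -/
def pt (𝔹 : Str τ B) (x y : B) : PT 𝔹 := ⟨ptype 𝔹 x y, x, y, rfl⟩

/-- The coloured order of a structure with free amalgamation. -/
def T_FB3 : Prop :=
  ∀ (τ : Sig) (B : Type) (𝔹 : Str τ B) (M : ℕ) (en : B → ℕ) (hen : Function.Injective en),
    (∀ l, 1 ≤ τ.ar l ∧ τ.ar l ≤ 2) → Homogeneous 𝔹 → 2 ≤ M → FreelyBounded 𝔹 M → Nonempty B →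
    ∃ (fr : PT 𝔹 → PT 𝔹 → PT 𝔹) (L Rt : PT 𝔹 → PT 𝔹), Typed (pt 𝔹) L Rt ∧
      @Universal B (PT 𝔹) (LinearOrder.lift' en hen) (pt 𝔹) fr M

/-- splitting -/
def T_FB4 : Prop :=
  ∀ (τ σ : Sig) (B : Type) (𝔹 : Str τ B) (𝔸 : Str σ B) (en : B → ℕ) (hen : Function.Injective en),
    (∀ l, 1 ≤ τ.ar l ∧ τ.ar l ≤ 2) → ClosedUnderSplitting 𝔸 𝔹 →
    @SplitClosed B (PT 𝔹) (LinearOrder.lift' en hen) σ 𝔸 (pt 𝔹)

/-- finitely many orbits -/
def T_FB5 : Prop :=
  ∀ (τ σ : Sig) (B : Type) (𝔹 : Str τ B) (𝔸 : Str σ B), Countable B → Homogeneous 𝔹 →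
    ClosedUnderSplitting 𝔸 𝔹 → Oligo 𝔸

end free

end Pool.Agent.H53.NR
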