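import Pool.Agent.H53.GC.Defs

/-!
# Structures with free amalgamation in a finite binary language: definitions
-/

set_option autoImplicit false

namespace Pool.Agent.H53.NR

open Pool.Agent.H68.BP Pool.Agent.H58.SF Pool.Agent.H53.GC

/-! ### Free amalgamation -/

section free

variable {τ σ : Sig} {B : Type}

/-- The substructure of `𝕏` on the image of `s`, as a structure on `W`. -/
def pull {X W : Type} (𝕏 : Str τ X) (s : W → X) : Str τ W := fun l z => 𝕏 l (fun i => s (z i))

/-- The age of `𝔹` has free amalgamation: if the finite structure `𝕏` is the union of two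
substructures which embed into `𝔹`, on the sets `S` and `T`, and no tuple in a relation of `𝕏`
meets both `S \ T` and `T \ S`, then `𝕏` embeds into `𝔹`. -/
def FreeAmalgamation (𝔹 : Str τ B) : Prop :=
  ∀ (n : ℕ) (𝕏 : Str τ (Fin n)) (S T : Set (Fin n)), (∀ x, x ∈ S ∨ x ∈ T) →
    Embeds (pull 𝕏 (fun x : S => (x : Fin n))) 𝔹 → Embeds (pull 𝕏 (fun x : T => (x : Fin n))) 𝔹 →
    (∀ l z, 𝕏 l z → (∀ i, z i ∈ S) ∨ ∀ i, z i ∈ T) → Embeds 𝕏 𝔹

/-- Each two different elements of the structure `𝕏` are in a common tuple in a relation. -/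
def Irreducible {X : Type} (𝕏 : Str τ X) : Prop :=
  ∀ x y, x ≠ y → ∃ (l : Fin τ.m) (z : Fin (τ.ar l) → X), 𝕏 l z ∧ (∃ i, z i = x) ∧ ∃ i, z i = y

/-- A finite structure embeds into `𝔹` if all its irreducible substructures with at most `M`
elements embed. -/
def FreelyBounded (𝔹 : Str τ B) (M : ℕ) : Prop :=
  ∀ (n : ℕ) (𝕏 : Str τ (Fin n)),
    (∀ (m : ℕ) (s : Fin m → Fin n), m ≤ M → Function.Injective s → Irreducible (pull 𝕏 s) →
      Embeds (pull 𝕏 s) 𝔹) → Embeds 𝕏 𝔹

/-- The tuple `y` arises from the tuple `x` by splitting of elements: different entries of `x` stay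
different, and a tuple of entries of `y` is in a relation of `𝔹` if and only if the corresponding
tuple of entries of `x` is in this relation and no element of this tuple has been split. -/
def Splits (𝔹 : Str τ B) {I : Type} (x y : I → B) : Prop :=
  (∀ a b, y a = y b → x a = x b) ∧
    ∀ (l : Fin τ.m) (a : Fin (τ.ar l) → I), 𝔹 l (fun i => y (a i)) ↔
      (𝔹 l (fun i => x (a i)) ∧ ∀ i j, x (a i) = x (a j) → y (a i) = y (a j))

/-- The relations of `𝔸` are closed under splitting. -/
def ClosedUnderSplitting (𝔸 : Str σ B) (𝔹 : Str τ B) : Prop :=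
  ∀ (l : Fin σ.m) (x y : Fin (σ.ar l) → B), 𝔸 l x → Splits 𝔹 x y → 𝔸 l y

end free

/-! ### Ramsey -/

section ramsey

variable {V X : Type} [LinearOrder V]

/-- The Ramsey property for finite subsets of `V`: for each colouring of the `n`-tuples with
finitely many colours and each finite set `K` there is an embedding `g` of `K` such that the colour
of `g x` depends only on the type of `x`. -/
def RamseyFin (c : V → V → X) : Prop :=
  ∀ (n k : ℕ) (K : Finset V) (χ : (Fin n → V) → Fin k), ∃ g : V → V,
    (∀ x ∈ K, ∀ y ∈ K, x < y → g x < g y) ∧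
    (∀ x ∈ K, ∀ y ∈ K, x ≤ y → c (g x) (g y) = c x y) ∧
    ∀ x y : Fin n → V, (∀ i, x i ∈ K) → (∀ i, y i ∈ K) → SameType c x y →
      χ (fun i => g (x i)) = χ (fun i => g (y i))

end ramsey

end Pool.Agent.H53.NR
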