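import Pool.Agent.H53.NR.Targets
import Pool.Agent.H53.GC.Asm

/-!
# Assembly
-/

set_option autoImplicit false

namespace Pool.Agent.H53.NR

open Pool.Agent.H68.BP Pool.Agent.H58.SF Pool.Agent.H53.GC

/-- The theorem for coloured orders, without the Ramsey property. -/
theorem asm_order (hCOR : T_COR) (hOMG : T_OMG) (hFIN : T_FIN) (hOLF : T_OLF) (hOLS : T_OLS)
    (hPOW : T_POW) (hGEO : T_GEO) (hMXV : T_MXV) (hMXP : T_MXP) (hLIM : T_LIM) (hRED : T_RED)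
    (hCA2 : T_CA2) (hNR3 : T_NR3)
    {σ : Sig} {V X : Type} [LinearOrder V] {𝔸 : Str σ V} {M : ℕ} {c : V → V → X}
    {fr : X → X → X} {L Rt : X → X} (hV : Countable V) (hs : Setup 𝔸 M c fr L Rt)
    (hol : Oligo 𝔸) :
    PPConstructsK3 𝔸 ∨ (¬ PPConstructsK3 (template 𝔸 M c) ∧
      N793a5b8e.ManyOneReducible (CSP 𝔸) (CSP (template 𝔸 M c))) := by
  have := hs.fin
  have := hs.ne
  have hX : Nonempty X := ⟨c (Classical.arbitrary V) (Classical.arbitrary V)⟩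
  by_cases hK : PPConstructsK3 𝔸
  · exact Or.inl hK
  · refine Or.inr ⟨?_, hRED σ V X 𝔸 M c fr L Rt hs⟩
    obtain ⟨h, hh⟩ := hPOW σ V X 𝔸 M c hV hs.ne hs.fin hol hK
    obtain ⟨h', hh', ht⟩ := hCA2 σ V X 𝔸 M c hs.fin (hNR3 V X c fr M hs.univ) hs.split h hh
    refine hOLS _ _ _ (hLIM σ V X 𝔸 M c hs.fin hX fun k => ?_)
    exact hOLF _ _ _ _ (no_selects hCOR hOMG hFIN (hGEO σ V X 𝔸 M c L Rt k hs.two hs.typed)
      (hMXV σ V X 𝔸 M c fr L Rt h' hs hh' ht k) (hMXP σ V X 𝔸 M c fr L Rt h' hs hh' ht k))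

/-- The theorem for structures with free amalgamation. -/
theorem asm_free (hFB1 : T_FB1) (hFB3 : T_FB3) (hFB4 : T_FB4) (hFB5 : T_FB5)
    (hmain : ∀ (σ : Sig) (V X : Type) [LinearOrder V] (𝔸 : Str σ V) (M : ℕ) (c : V → V → X)
      (fr : X → X → X) (L Rt : X → X), Countable V → Setup 𝔸 M c fr L Rt → Oligo 𝔸 →
      PPConstructsK3 𝔸 ∨ (¬ PPConstructsK3 (template 𝔸 M c) ∧
        N793a5b8e.ManyOneReducible (CSP 𝔸) (CSP (template 𝔸 M c))))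
    (τ σ : Sig) (B : Type) [Countable B] [Nonempty B] (𝔹 : Str τ B) (𝔸 : Str σ B)
    (har : ∀ l, 1 ≤ τ.ar l ∧ τ.ar l ≤ 2) (hH : Homogeneous 𝔹) (hF : FinitelyBounded 𝔹)
    (hA : FreeAmalgamation 𝔹) (hS : ClosedUnderSplitting 𝔸 𝔹) :
    PPConstructsK3 𝔸 ∨ ∃ (σ' : Sig) (Y : Type) (_ : Finite Y) (𝕋 : Str σ' Y),
      ¬ PPConstructsK3 𝕋 ∧ N793a5b8e.ManyOneReducible (CSP 𝔸) (CSP 𝕋) := by
  obtain ⟨M, hM, hFB⟩ := hFB1 τ B 𝔹 hF hA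
  obtain ⟨en, hen⟩ := exists_injective_nat B
  obtain ⟨fr, L, Rt, hT, hU⟩ := hFB3 τ B 𝔹 M en hen har hH hM hFB inferInstance
  letI : LinearOrder B := LinearOrder.lift' en hen
  have hX : Finite (PT 𝔹) := inferInstance
  rcases hmain σ B (PT 𝔹) 𝔸 M (pt 𝔹) fr L Rt inferInstance
    ⟨hX, inferInstance, hM, hT, hU, hFB4 τ σ B 𝔹 𝔸 en hen har hS⟩
    (hFB5 τ σ B 𝔹 𝔸 inferInstance hH hS) with h | h
  · exact Or.inl h
  · exact Or.inr ⟨_, PT 𝔹 × Bool, inferInstance, _, h.1, h.2⟩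

end Pool.Agent.H53.NR
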