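import Pool.Agent.H53.NR.Defs

/-!
# Relations of injective tuples are closed under splitting
-/

set_option autoImplicit false

namespace Pool.Agent.H53.NR

open Pool.Agent.H68.BP Pool.Agent.H58.SF Pool.Agent.H53.GC

/-- Relations of injective tuples which are preserved by the automorphisms of the homogeneous
structure `𝔹` are closed under splitting. -/
theorem pf_FB6 {τ σ : Sig} {B : Type} {𝔹 : Str τ B} {𝔸 : Str σ B} (hH : Homogeneous 𝔹)
    (hA : ∀ g : B ≃ B, IsAut 𝔹 g → IsAut 𝔸 g)
    (hi : ∀ (l : Fin σ.m) (x : Fin (σ.ar l) → B), 𝔸 l x → Function.Injective x) :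
    ClosedUnderSplitting 𝔸 𝔹 := by
  classical
  intro l x y hx hs
  have hxi := hi l x hx
  have hyi : Function.Injective y := fun a b hab => hxi (hs.1 a b hab)
  -- the partial isomorphism
  let F : Finset B := Finset.univ.image x
  have hF : ∀ z : F, ∃ a, x a = z := by
    intro z
    obtain ⟨a, _, ha⟩ := Finset.mem_image.1 z.2
    exact ⟨a, ha⟩
  choose s hs' using hF
  let f : F → B := fun z => y (s z)
  obtain ⟨g, hg, hgf⟩ := hH F f (by
    constructor
    · intro z z' h
      have h1 : s z = s z' := hyi h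
      apply Subtype.ext
      rw [← hs' z, ← hs' z', h1]
    · intro l' z
      have h1 := hs.2 l' (fun i => s (z i))
      have h2 : (fun i => x (s (z i))) = fun i => ((z i : F) : B) := funext fun i => hs' (z i)
      rw [h2] at h1
      change 𝔹 l' (fun i => ((z i : F) : B)) ↔ 𝔹 l' (fun i => y (s (z i)))
      rw [h1]
      constructor
      · intro h
        refine ⟨h, fun i j hij => ?_⟩
        rw [hxi hij]
      · exact fun h => h.1)
  have h3 : (fun i => g (x i)) = y := by
    funext i
    have hm : x i ∈ F := Finset.mem_image.2 ⟨i, Finset.mem_univ _, rfl⟩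
    have h4 := hgf ⟨x i, hm⟩
    have h5 : s ⟨x i, hm⟩ = i := hxi (hs' ⟨x i, hm⟩)
    change g (x i) = y (s ⟨x i, hm⟩) at h4
    rw [h4, h5]
  have h6 := (hA g hg l x).1 hx
  rwa [h3] at h6

end Pool.Agent.H53.NR
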